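import Pool.Agent.V8H85.GX.Snd2

/-!
# The start of a certificate, and the explicit list of the facets at its end
-/

set_option autoImplicit false

namespace Pool.Agent.V8H85.GX

open Pool.Agent.V8H27.GC
open Pool.Agent.V8H50.FL (rec_f and_t)
open Pool.Agent.V8H50.GC (faces)

theorem addF_ok (i : ℕ) (l : List ℕ) : ∀ (t : BT) (k : BT → Bool), addF (two i) l t k = true → t.perf 9 = true →
    (∀ v ∈ l, v < 512) → ∃ t', k t' = true ∧ t'.perf 9 = true ∧ ∀ v < 512, ∀ j,
      ((t'.get v).testBit j = true ↔ (t.get v).testBit j = true ∨ (v ∈ l ∧ i = j)) := by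
  induction l with
  | nil =>
    intro t k h ht _
    exact ⟨t, h, ht, fun v _ j => by simp⟩
  | cons u l ih =>
    intro t k h ht hlt
    obtain ⟨-, h2⟩ := rec_f (show (Bool.rec false (addF (two i) l (BT.set (Nat.lor (t.get u) (two i)) t u) k)
      (Nat.beq (Nat.land (t.get u) (two i)) 0) : Bool) = true from h)
    have hu : u < 2 ^ 9 := hlt u List.mem_cons_self
    obtain ⟨t', h3, h4, h5⟩ := ih _ _ h2 (perf_set _ t 9 _ ht) fun v hv => hlt v (List.mem_cons_of_mem _ hv)
    refine ⟨t', h3, h4, fun v hv j => ?_⟩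
    rw [h5 v hv, get_set _ t 9 _ _ ht hu hv]
    by_cases hvu : v = u
    · subst hvu
      rw [if_pos rfl, tb_lor, tb_two, Bool.or_eq_true, decide_eq_true_eq]
      simp only [List.mem_cons, true_or, true_and]
      tauto
    · rw [if_neg hvu]
      simp only [List.mem_cons, hvu, false_or]

theorem vs_lt (m : ℕ) : ∀ x, ∀ v ∈ vs m x, v < 512 := by
  induction m with
  | zero => intro x v hv; exact absurd hv (by simp [vs])
  | succ m ih =>
    intro x v hv
    have e : vs (m + 1) x = Nat.land x 511 :: vs m (Nat.shiftRight x 9) := rfl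
    rw [e, List.mem_cons] at hv
    rcases hv with rfl | hv
    · have : Nat.land x 511 ≤ 511 := Nat.and_le_right
      omega
    · exact ih _ v hv

theorem bld_ok (fs : List ℕ) : ∀ (t : BT) (k : BT → Bool), bld fs t k = true → t.perf 9 = true →
    ∃ t', k t' = true ∧ t'.perf 9 = true ∧ ∀ v < 512, ∀ j,
      ((t'.get v).testBit j = true ↔ (t.get v).testBit j = true ∨ ∃ x ∈ fs, v ∈ vs 7 x ∧ Nat.shiftRight x 63 = j) := by
  induction fs with
  | nil =>
    intro t k h ht
    exact ⟨t, h, ht, fun v _ j => by simp⟩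
  | cons x fs ih =>
    intro t k h ht
    obtain ⟨t1, h1, h2, h3⟩ := addF_ok (Nat.shiftRight x 63) (vs 7 x) t (fun t => bld fs t k) h ht (vs_lt 7 x)
    obtain ⟨t2, h4, h5, h6⟩ := ih t1 k h1 h2
    refine ⟨t2, h4, h5, fun v hv j => ?_⟩
    rw [h6 v hv, h3 v hv]
    constructor
    · rintro ((h | h) | ⟨y, hy, h⟩)
      · exact Or.inl h
      · exact Or.inr ⟨x, List.mem_cons_self, h⟩
      · exact Or.inr ⟨y, List.mem_cons_of_mem _ hy, h⟩
    · rintro (h7 | ⟨y, hy, h7⟩)
      · exact Or.inl (Or.inl h7)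
      · rcases List.mem_cons.1 hy with e | hy
        · rw [e] at h7
          exact Or.inl (Or.inr h7)
        · exact Or.inr ⟨y, hy, h7⟩

theorem zt_perf (d : ℕ) : (zt d).perf d = true := by
  induction d with
  | zero => rfl
  | succ d ih =>
    have e : zt (d + 1) = .nd (zt d) (zt d) := rfl
    rw [e, perf_nd]
    exact ⟨ih, ih⟩

theorem zt_get (d : ℕ) : ∀ p, (zt d).get p = 0 := by
  induction d with
  | zero => intro p; rfl
  | succ d ih =>
    intro p
    have e : zt (d + 1) = .nd (zt d) (zt d) := rfl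
    rw [e, get_nd]
    split_ifs <;> exact ih _

theorem mask_ok (l : List ℕ) (v : ℕ) : (mask l).testBit v = true ↔ v ∈ l := by
  induction l with
  | nil =>
    have e : mask [] = 0 := rfl
    rw [e]; simp
  | cons u l ih =>
    have e : mask (u :: l) = Nat.lor (two u) (mask l) := rfl
    rw [e, tb_lor, tb_two, Bool.or_eq_true, decide_eq_true_eq, ih, List.mem_cons]
    exact ⟨fun h => h.elim (fun e => Or.inl e.symm) Or.inr, fun h => h.elim (fun e => Or.inl e.symm) Or.inr⟩

theorem msk_ok (fs : List ℕ) : ∀ L, msk fs L = true → L = fs.map fun x => mask (vs 7 x) := by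
  induction fs with
  | nil =>
    intro L h
    cases L with
    | nil => rfl
    | cons y t => exact absurd h Bool.false_ne_true
  | cons x fs ih =>
    intro L h
    cases L with
    | nil => exact absurd h Bool.false_ne_true
    | cons y t =>
      obtain ⟨h1, h2⟩ := rec_f (show (Bool.rec false (msk fs t) (Nat.beq (mask (vs 7 x)) y) : Bool) = true from h)
      rw [List.map_cons, ← ih t h2, Nat.eq_of_beq_eq_true h1]

theorem idxs_eq (fs : List ℕ) : idxs fs = fs.map fun x => Nat.shiftRight x 63 := by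
  induction fs with
  | nil => rfl
  | cons x fs ih => exact congrArg (Nat.shiftRight x 63 :: ·) ih

/-- soundness of the check of the list of the facets -/
theorem fin_ok {fs L : List ℕ} {t : BT} (h : fin fs L t = true) : KB t = faces L := by
  obtain ⟨h1, h⟩ := and_t h
  obtain ⟨h2, h⟩ := and_t h
  obtain ⟨h3, h⟩ := and_t h
  have hL := msk_ok _ _ h1
  obtain ⟨w, -, -, hnd, -⟩ := ors_ok _ _ _ h2
  rw [idxs_eq] at hnd
  have hlen : 1 ≤ len fs := Nat.le_of_ble_eq_true h3
  rw [len_eq] at hlen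
  obtain ⟨t', h4, -, h5⟩ := bld_ok fs (zt 9) _ h (zt_perf 9)
  have ht := beq_ok _ _ h4
  subst ht
  have hg : ∀ v < 512, ∀ j, ((t'.get v).testBit j = true ↔ ∃ x ∈ fs, v ∈ vs 7 x ∧ Nat.shiftRight x 63 = j) := by
    intro v hv j
    rw [h5 v hv, zt_get, Nat.zero_testBit]
    simp
  subst hL
  ext T
  constructor
  · rintro ⟨j, hT⟩
    rcases T.eq_empty_or_nonempty with rfl | ⟨v0, hv0⟩
    · obtain ⟨x, hx⟩ := List.exists_mem_of_length_pos (show 0 < fs.length by omega)
      exact ⟨_, List.mem_map_of_mem hx, by simp⟩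
    · obtain ⟨x0, hx0, -, e0⟩ := (hg v0 (hT v0 hv0).1 j).1 (hT v0 hv0).2
      refine ⟨_, List.mem_map_of_mem hx0, fun v hv => ?_⟩
      obtain ⟨x, hx, hvx, e⟩ := (hg v (hT v hv).1 j).1 (hT v hv).2
      have : x = x0 := List.inj_on_of_nodup_map hnd hx hx0 (e.trans e0.symm)
      subst this
      exact (mask_ok _ _).2 hvx
  · rintro ⟨f, hf, hT⟩
    obtain ⟨x, hx, rfl⟩ := List.mem_map.1 hf
    refine ⟨Nat.shiftRight x 63, fun v hv => ?_⟩
    have h6 := (mask_ok _ _).1 (hT v hv)
    have h7 := vs_lt 7 x v h6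
    exact ⟨h7, (hg v h7 _).2 ⟨x, hx, h6, rfl⟩⟩

/-- the end of a certificate -/
theorem plc_of {n : ℕ} {fs L : List ℕ} {t : BT} {U : ℕ} (g : Good n t U) (h : fin fs L t = true) : PLC n (faces L) := by
  rw [← fin_ok h]
  exact g.2.2

end Pool.Agent.V8H85.GX
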