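import Pool.Agent.V8H85.GX.Fin

/-!
# The start of a certificate at an arbitrary simplex
-/

set_option autoImplicit false

namespace Pool.Agent.V8H85.GX

open Pool.Agent.V8H27.GC
open Pool.Agent.V8H50.FL (and_t)
open Pool.Agent.V8H50.GC (faces start_PLC)

/-- a consistent state for a PL sphere which is given by its facets -/
theorem good_of {n : ℕ} {t : BT} {U : ℕ} {L : List ℕ} (hp : t.perf 9 = true)
    (hI : ∀ v < 512, Nat.land (t.get v) U = t.get v) (hK : KB t = faces L) (h : PLC n (faces L)) : Good n t U := by
  refine ⟨hp, fun v hv j hj => ?_, by rw [hK]; exact h⟩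
  have h1 := congrArg (fun x => x.testBit j) (hI v hv)
  simp only [tb_land, hj, Bool.true_and] at h1
  exact h1

/-- the start -/
theorem start_of {m n : ℕ} {W fs L : List ℕ} {t : BT} {U : ℕ} (hp : t.perf 9 = true)
    (hI : ∀ v < 512, Nat.land (t.get v) U = t.get v) (hf : fin fs L t = true)
    (h : Pool.Agent.V8H50.FL.start m (n + 1) W L = true) : Good n t U :=
  good_of hp hI (fin_ok hf) (start_PLC h)

end Pool.Agent.V8H85.GX
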