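import Pool.Agent.V8H85.GX.Snd

/-!
# Soundness of one flip and of a segment
-/

set_option autoImplicit false

namespace Pool.Agent.V8H85.GX

open Pool.Agent.V8H27.GC
open Pool.Agent.V8H50.FL (rec_f and_t)
open Pool.Agent.V8H50.GC (PLC_flip)

/-- the vertices of the facet with the index `j` -/
noncomputable def fac (t : BT) (j : ℕ) : Finset ℕ := (Finset.range 512).filter fun v => (t.get v).testBit j = true

theorem mem_fac {t : BT} {j v : ℕ} : v ∈ fac t j ↔ v < 512 ∧ (t.get v).testBit j = true := by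
  unfold fac
  rw [Finset.mem_filter, Finset.mem_range]

theorem fac_mem (t : BT) (j : ℕ) : fac t j ∈ KB t := ⟨j, fun _ hv => mem_fac.1 hv⟩

/-- the conditions for one flip, for sets -/
structure Fl (n : ℕ) (t t' : BT) (U U' : ℕ) (A B : Finset ℕ) (f : ℕ → ℕ) (OB NA : ℕ) : Prop where
  p1 : t'.perf 9 = true
  ltA : ∀ a ∈ A, a < 512
  ltB : ∀ b ∈ B, b < 512
  dis : Disjoint A B
  card : A.card + B.card = n + 1
  neA : A.Nonempty
  neB : B.Nonempty
  injA : ∀ a ∈ A, ∀ a' ∈ A, f a = f a' → a = a'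
  injB : ∀ b ∈ B, ∀ b' ∈ B, f b = f b' → b = b'
  hNA : ∀ j, NA.testBit j = true ↔ ∃ a ∈ A, f a = j
  hOB : ∀ j, OB.testBit j = true ↔ ∃ b ∈ B, f b = j
  hSA : ∀ j, OB.testBit j = true ↔ U.testBit j = true ∧ ∀ a ∈ A, (t.get a).testBit j = true
  hSB : ∀ j, U.testBit j = true → ¬ ∀ b ∈ B, (t.get b).testBit j = true
  hB : ∀ b ∈ B, ∀ j, OB.testBit j = true → ((t.get b).testBit j = true ↔ f b ≠ j)
  hfree : ∀ j, NA.testBit j = true → U.testBit j = OB.testBit j
  gA : ∀ a ∈ A, ∀ j, (t'.get a).testBit j = ((((t.get a).testBit j) ^^ OB.testBit j) || (NA.testBit j ^^ decide (f a = j)))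
  gB : ∀ b ∈ B, ∀ j, (t'.get b).testBit j = ((((t.get b).testBit j) ^^ (OB.testBit j ^^ decide (f b = j))) || NA.testBit j)
  gO : ∀ v < 512, v ∉ A → v ∉ B → t'.get v = t.get v
  gU : ∀ j, U'.testBit j = ((U.testBit j ^^ OB.testBit j) || NA.testBit j)

theorem Fl.good {n : ℕ} {t t' : BT} {U U' : ℕ} {A B : Finset ℕ} {f : ℕ → ℕ} {OB NA : ℕ}
    (h : Fl n t t' U U' A B f OB NA) (g : Good n t U) : Good n t' U' := by
  obtain ⟨-, hI, hP⟩ := g
  have hcU : (A ∪ B).card = n + 1 := by rw [Finset.card_union_of_disjoint h.dis, h.card]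
  -- the facets containing `A`
  have hfac : ∀ b ∈ B, fac t (f b) = (A ∪ B).erase b := by
    intro b hb
    have hbit : OB.testBit (f b) = true := (h.hOB _).2 ⟨b, hb, rfl⟩
    have hsub : (A ∪ B).erase b ⊆ fac t (f b) := by
      intro v hv
      rw [Finset.mem_erase, Finset.mem_union] at hv
      rw [mem_fac]
      rcases hv.2 with hvA | hvB
      · exact ⟨h.ltA v hvA, ((h.hSA _).1 hbit).2 v hvA⟩
      · refine ⟨h.ltB v hvB, (h.hB v hvB _ hbit).2 fun e => hv.1 ?_⟩
        exact h.injB v hvB b hb e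
    have hc : ((A ∪ B).erase b).card = n := by
      rw [Finset.card_erase_of_mem (Finset.mem_union_right _ hb), hcU]; rfl
    exact (Finset.eq_of_subset_of_card_le hsub (by rw [hc]; exact PLC_card hP _ (fac_mem t _))).symm
  have hfac' : ∀ j, OB.testBit j = true → ∃ b ∈ B, f b = j ∧ fac t j = (A ∪ B).erase b := by
    intro j hj
    obtain ⟨b, hb, rfl⟩ := (h.hOB j).1 hj
    exact ⟨b, hb, rfl, hfac b hb⟩
  have hout : ∀ v < 512, v ∉ A → v ∉ B → ∀ j, OB.testBit j = true → (t.get v).testBit j = false := by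
    intro v hv hvA hvB j hj
    obtain ⟨b, hb, -, e⟩ := hfac' j hj
    by_contra hcon
    rw [Bool.not_eq_false] at hcon
    have h1 : v ∈ fac t j := mem_fac.2 ⟨hv, hcon⟩
    rw [e, Finset.mem_erase, Finset.mem_union] at h1
    exact h1.2.elim hvA hvB
  have hAb : ∀ a ∈ A, ∀ j, OB.testBit j = true → (t.get a).testBit j = true := fun a ha j hj =>
    ((h.hSA j).1 hj).2 a ha
  -- the new facets
  have N1 : ∀ v < 512, ∀ j, NA.testBit j = false → OB.testBit j = false →
      (t'.get v).testBit j = (t.get v).testBit j := by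
    intro v hv j h1 h2
    by_cases hvA : v ∈ A
    · have h3 : f v ≠ j := fun e => by
        have := (h.hNA j).2 ⟨v, hvA, e⟩
        rw [h1] at this
        exact Bool.false_ne_true this
      rw [h.gA v hvA, h1, h2]
      simp [h3]
    · by_cases hvB : v ∈ B
      · have h3 : f v ≠ j := fun e => by
          have := (h.hOB j).2 ⟨v, hvB, e⟩
          rw [h2] at this
          exact Bool.false_ne_true this
        rw [h.gB v hvB, h1, h2]
        simp [h3]
      · rw [h.gO v hv hvA hvB]
  have N2 : ∀ v < 512, ∀ j, NA.testBit j = false → OB.testBit j = true → (t'.get v).testBit j = false := by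
    intro v hv j h1 h2
    by_cases hvA : v ∈ A
    · have h3 : f v ≠ j := fun e => by
        have := (h.hNA j).2 ⟨v, hvA, e⟩
        rw [h1] at this
        exact Bool.false_ne_true this
      rw [h.gA v hvA, h1, h2, hAb v hvA j h2]
      simp [h3]
    · by_cases hvB : v ∈ B
      · rw [h.gB v hvB, h1, h2]
        by_cases h4 : f v = j
        · have h5 : (t.get v).testBit j = false := by
            by_contra hcon
            rw [Bool.not_eq_false] at hcon
            exact (h.hB v hvB j h2).1 hcon h4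
          rw [h5]
          simp [h4]
        · rw [(h.hB v hvB j h2).2 h4]
          simp [h4]
      · rw [h.gO v hv hvA hvB]
        exact hout v hv hvA hvB j h2
  have N3 : ∀ a ∈ A, ∀ v < 512, ((t'.get v).testBit (f a) = true ↔ v ∈ (A ∪ B).erase a) := by
    intro a ha v hv
    have h1 : NA.testBit (f a) = true := (h.hNA _).2 ⟨a, ha, rfl⟩
    have hfr := h.hfree _ h1
    have haB : a ∉ B := Finset.disjoint_left.1 h.dis ha
    rw [Finset.mem_erase, Finset.mem_union]
    by_cases hvA : v ∈ A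
    · rw [h.gA v hvA, h1]
      by_cases hva : v = a
      · subst hva
        have h5 : (t.get v).testBit (f v) = OB.testBit (f v) := by
          by_cases hO : OB.testBit (f v) = true
          · rw [hO]; exact hAb v ha _ hO
          · rw [Bool.not_eq_true] at hO
            rw [hO] at hfr ⊢
            by_contra hcon
            rw [Bool.not_eq_false] at hcon
            have := hI v hv _ hcon
            rw [hfr] at this
            exact Bool.false_ne_true this
        rw [h5]
        simp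
      · have h6 : f v ≠ f a := fun e => hva (h.injA v hvA a ha e)
        simp [h6, hva, hvA]
    · by_cases hvB : v ∈ B
      · rw [h.gB v hvB, h1]
        have hva : v ≠ a := fun e => haB (e ▸ hvB)
        simp [hva, hvB]
      · rw [h.gO v hv hvA hvB]
        have h5 : (t.get v).testBit (f a) = false := by
          by_cases hO : OB.testBit (f a) = true
          · exact hout v hv hvA hvB _ hO
          · rw [Bool.not_eq_true] at hO
            rw [hO] at hfr
            by_contra hcon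
            rw [Bool.not_eq_false] at hcon
            have := hI v hv _ hcon
            rw [hfr] at this
            exact Bool.false_ne_true this
        rw [h5]
        simp [hvA, hvB]
  have ltU : ∀ v ∈ A ∪ B, v < 512 := by
    intro v hv
    rcases Finset.mem_union.1 hv with h1 | h1
    · exact h.ltA v h1
    · exact h.ltB v h1
  -- the conditions of the flip
  have c1 : ∀ T ∈ KB t, A ⊆ T → T ⊆ A ∪ B := by
    rintro T ⟨j, hT⟩ hAT
    have hj : OB.testBit j = true := by
      rw [h.hSA]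
      obtain ⟨a, ha⟩ := h.neA
      exact ⟨hI a (h.ltA a ha) j (hT a (hAT ha)).2, fun a ha => (hT a (hAT ha)).2⟩
    obtain ⟨b, hb, -, e⟩ := hfac' j hj
    intro v hv
    have h1 : v ∈ fac t j := mem_fac.2 (hT v hv)
    rw [e] at h1
    exact Finset.mem_of_mem_erase h1
  have c2 : ∀ b ∈ B, (A ∪ B).erase b ∈ KB t := by
    intro b hb
    rw [← hfac b hb]
    exact fac_mem t _
  have c3 : B ∉ KB t := by
    rintro ⟨j, hT⟩
    obtain ⟨b, hb⟩ := h.neB
    exact h.hSB j (hI b (h.ltB b hb) j (hT b hb).2) fun b hb => (hT b hb).2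
  have hK' : KB t' = Pool.Agent.V8H50.GC.flipped (KB t) A B := by
    have hnew : ∀ T : Finset ℕ, T ⊆ A ∪ B → ¬ A ⊆ T → T ∈ KB t' := by
      intro T hT hAT
      obtain ⟨a, ha, haT⟩ := Finset.not_subset.1 hAT
      refine ⟨f a, fun v hv => ⟨ltU v (hT hv), (N3 a ha v (ltU v (hT hv))).2 ?_⟩⟩
      rw [Finset.mem_erase]
      exact ⟨fun e => haT (e ▸ hv), hT hv⟩
    ext T
    constructor
    · rintro ⟨j, hT⟩
      by_cases h1 : NA.testBit j = true
      · obtain ⟨a, ha, rfl⟩ := (h.hNA j).1 h1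
        have hT' : T ⊆ (A ∪ B).erase a := fun v hv => (N3 a ha v (hT v hv).1).1 (hT v hv).2
        have hAT : ¬ A ⊆ T := fun h2 => (Finset.mem_erase.1 (hT' (h2 ha))).1 rfl
        have hTU : T ⊆ A ∪ B := hT'.trans (Finset.erase_subset _ _)
        by_cases hBT : B ⊆ T
        · exact Or.inr ⟨hBT, hTU, hAT⟩
        · obtain ⟨b, hb, hbT⟩ := Finset.not_subset.1 hBT
          refine Or.inl ⟨KB_down _ (c2 b hb) _ fun v hv => ?_, hAT⟩
          rw [Finset.mem_erase]
          exact ⟨fun e => hbT (e ▸ hv), hTU hv⟩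
      · rw [Bool.not_eq_true] at h1
        by_cases h2 : OB.testBit j = true
        · have hT0 : T = ∅ := by
            rw [Finset.eq_empty_iff_forall_notMem]
            intro v hv
            have := (hT v hv).2
            rw [N2 v (hT v hv).1 j h1 h2] at this
            exact Bool.false_ne_true this
          subst hT0
          refine Or.inl ⟨⟨j, by simp⟩, fun h3 => ?_⟩
          obtain ⟨a, ha⟩ := h.neA
          exact absurd (h3 ha) (Finset.notMem_empty a)
        · rw [Bool.not_eq_true] at h2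
          have hT' : ∀ v ∈ T, v < 512 ∧ (t.get v).testBit j = true := by
            intro v hv
            refine ⟨(hT v hv).1, ?_⟩
            rw [← N1 v (hT v hv).1 j h1 h2]
            exact (hT v hv).2
          refine Or.inl ⟨⟨j, hT'⟩, fun hAT => ?_⟩
          have hj : OB.testBit j = true := by
            rw [h.hSA]
            obtain ⟨a, ha⟩ := h.neA
            exact ⟨hI a (h.ltA a ha) j (hT' a (hAT ha)).2, fun a ha => (hT' a (hAT ha)).2⟩
          rw [h2] at hj
          exact Bool.false_ne_true hj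
    · rintro (⟨⟨j, hT⟩, hAT⟩ | ⟨-, hTU, hAT⟩)
      · by_cases h2 : OB.testBit j = true
        · obtain ⟨b, hb, -, e⟩ := hfac' j h2
          refine hnew T (fun v hv => ?_) hAT
          have h1 : v ∈ fac t j := mem_fac.2 (hT v hv)
          rw [e] at h1
          exact Finset.mem_of_mem_erase h1
        · rw [Bool.not_eq_true] at h2
          by_cases h1 : NA.testBit j = true
          · have hfr := h.hfree j h1
            rw [h2] at hfr
            have hT0 : T = ∅ := by
              rw [Finset.eq_empty_iff_forall_notMem]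
              intro v hv
              have := hI v (hT v hv).1 j (hT v hv).2
              rw [hfr] at this
              exact Bool.false_ne_true this
            subst hT0
            exact ⟨j, by simp⟩
          · rw [Bool.not_eq_true] at h1
            refine ⟨j, fun v hv => ⟨(hT v hv).1, ?_⟩⟩
            rw [N1 v (hT v hv).1 j h1 h2]
            exact (hT v hv).2
      · exact hnew T hTU hAT
  refine ⟨h.p1, ?_, ?_⟩
  · intro v hv j hj
    rw [h.gU]
    by_cases h1 : NA.testBit j = true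
    · rw [h1]; simp
    · rw [Bool.not_eq_true] at h1
      by_cases h2 : OB.testBit j = true
      · rw [N2 v hv j h1 h2] at hj
        exact absurd hj Bool.false_ne_true
      · rw [Bool.not_eq_true] at h2
        rw [N1 v hv j h1 h2] at hj
        rw [hI v hv j hj, h2]
        simp
  · rw [hK']
    exact PLC_flip KB_down hP ⟨512, fun T ⟨j, hT⟩ v hv => (hT v hv).1⟩ h.dis h.neA h.neB c1 c2 c3

/-- the index of the facet without the vertex `v` -/
def idx (l : List (ℕ × ℕ)) (v : ℕ) : ℕ := ((l.find? fun p => p.1 == v).map Prod.snd).getD 0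

theorem idx_eq {l : List (ℕ × ℕ)} (hnd : (l.map Prod.fst).Nodup) {p : ℕ × ℕ} (hp : p ∈ l) : idx l p.1 = p.2 := by
  unfold idx
  induction l with
  | nil => exact absurd hp (by simp)
  | cons q l ih =>
    rw [List.map_cons, List.nodup_cons] at hnd
    rcases List.mem_cons.1 hp with rfl | hp
    · simp
    · have hne : q.1 ≠ p.1 := fun e => hnd.1 (e ▸ List.mem_map_of_mem hp)
      rw [List.find?_cons_of_neg (by simpa using hne)]
      exact ih hnd.2 hp

/-- soundness of one flip -/
theorem flip_ok {n : ℕ} {A B : List (ℕ × ℕ)} {t : BT} {U : ℕ} {k : BT → ℕ → Bool} (h : flip n A B t U k = true)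
    (g : Good n t U) : ∃ t' U', k t' U' = true ∧ Good n t' U' := by
  obtain ⟨NA, h, hNA, hndA, -⟩ := ors_ok _ _ _ h
  obtain ⟨OB, h, hOB, hndB, -⟩ := ors_ok _ _ _ h
  obtain ⟨c1, h, hc1, hvA, -⟩ := ors_ok _ _ _ h
  obtain ⟨c, h, hc, hvB, hdis⟩ := ors_ok _ _ _ h
  obtain ⟨e1, h⟩ := rec_f h
  obtain ⟨e2, h⟩ := rec_f h
  obtain ⟨e3, h⟩ := rec_f h
  obtain ⟨e4, h⟩ := rec_f h
  obtain ⟨e5, h⟩ := rec_f h
  obtain ⟨e6, h⟩ := rec_f h
  obtain ⟨e7, e8⟩ := and_t e1
  obtain ⟨e8, e9⟩ := and_t e8
  have e7 := Nat.eq_of_beq_eq_true e7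
  have e8 := Nat.le_of_ble_eq_true e8
  have e9 := Nat.le_of_ble_eq_true e9
  have e2 : c < two 512 := Nat.le_of_ble_eq_true e2
  have e3 := Nat.eq_of_beq_eq_true e3
  have e4 := Nat.eq_of_beq_eq_true e4
  have e5 := chkB_ok _ _ _ e5
  have e6 := Nat.eq_of_beq_eq_true e6
  rw [len_eq, fsts_eq, List.length_map] at e7 e8 e9
  rw [len_eq, fsts_eq, List.length_map] at e7
  rw [snds_eq] at hndA hndB hNA hOB
  rw [fsts_eq] at hvA hvB hdis hc1 hc e3 e4
  have e7 : A.length + B.length = n + 1 := e7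
  have hlt : ∀ v, v ∈ A.map Prod.fst ∨ v ∈ B.map Prod.fst → v < 512 := by
    intro v hv
    by_contra hcon
    have h1 : c.testBit v = false := by
      refine Nat.testBit_lt_two_pow (lt_of_lt_of_le e2 ?_)
      have : two 512 = 2 ^ 512 := Nat.one_shiftLeft 512
      rw [this]
      exact Nat.pow_le_pow_right (by norm_num) (by omega)
    rw [hc, hc1, Nat.zero_testBit] at h1
    simp only [Bool.false_or, Bool.or_eq_false_iff, decide_eq_false_iff_not] at h1
    exact hv.elim h1.1 h1.2
  have hdis' : ∀ v ∈ B.map Prod.fst, v ∉ A.map Prod.fst := by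
    intro v hv hvA'
    have h1 := hdis v hv
    rw [hc1, Nat.zero_testBit] at h1
    rw [Bool.false_or, decide_eq_false_iff_not] at h1
    exact h1 hvA'
  have hltA : ∀ p ∈ A, p.1 < 512 := fun p hp => hlt _ (Or.inl (List.mem_map_of_mem hp))
  have hltB : ∀ p ∈ B, p.1 < 512 := fun p hp => hlt _ (Or.inr (List.mem_map_of_mem hp))
  obtain ⟨a1, a2, a3⟩ := updA_ok OB NA A t g.1 hvA hltA
  obtain ⟨b1, b2, b3⟩ := updB_ok OB NA B _ a1 hvB hltB
  refine ⟨_, _, h, ?_⟩
  have inj2 : ∀ {l : List (ℕ × ℕ)}, (l.map Prod.snd).Nodup → ∀ p ∈ l, ∀ q ∈ l, p.2 = q.2 → p = q :=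
    fun hl p hp q hq e => List.inj_on_of_nodup_map hl hp hq e
  have mm : ∀ {l : List (ℕ × ℕ)} {v : ℕ}, v ∈ (l.map Prod.fst).toFinset ↔ ∃ p ∈ l, p.1 = v := by
    intro l v
    rw [List.mem_toFinset, List.mem_map]
  refine Fl.good (A := (A.map Prod.fst).toFinset) (B := (B.map Prod.fst).toFinset)
    (f := fun v => if v ∈ A.map Prod.fst then idx A v else idx B v) (OB := OB) (NA := NA) (t := t) (U := U)
    ⟨b1, ?_, ?_, ?_, ?_, ?_, ?_, ?_, ?_, ?_, ?_, ?_, ?_, ?_, ?_, ?_, ?_, ?_, ?_⟩ g
  · exact fun a ha => hlt a (Or.inl (List.mem_toFinset.1 ha))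
  · exact fun b hb => hlt b (Or.inr (List.mem_toFinset.1 hb))
  · rw [Finset.disjoint_left]
    intro v hv hv'
    exact hdis' v (List.mem_toFinset.1 hv') (List.mem_toFinset.1 hv)
  · rw [List.toFinset_card_of_nodup hvA, List.toFinset_card_of_nodup hvB, List.length_map, List.length_map]
    exact e7
  · obtain ⟨p, hp⟩ := List.exists_mem_of_length_pos (show 0 < A.length by omega)
    exact ⟨p.1, mm.2 ⟨p, hp, rfl⟩⟩
  · obtain ⟨p, hp⟩ := List.exists_mem_of_length_pos (show 0 < B.length by omega)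
    exact ⟨p.1, mm.2 ⟨p, hp, rfl⟩⟩
  · intro a ha a' ha' e
    obtain ⟨p, hp, rfl⟩ := mm.1 ha
    obtain ⟨q, hq, rfl⟩ := mm.1 ha'
    simp only [List.mem_toFinset.1 ha, List.mem_toFinset.1 ha', if_true, idx_eq hvA hp, idx_eq hvA hq] at e
    rw [inj2 hndA p hp q hq e]
  · intro b hb b' hb' e
    obtain ⟨p, hp, rfl⟩ := mm.1 hb
    obtain ⟨q, hq, rfl⟩ := mm.1 hb'
    simp only [hdis' _ (List.mem_toFinset.1 hb), hdis' _ (List.mem_toFinset.1 hb'), if_false, idx_eq hvB hp,
      idx_eq hvB hq] at e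
    rw [inj2 hndB p hp q hq e]
  · intro j
    rw [hNA, Nat.zero_testBit, Bool.false_or, decide_eq_true_eq, List.mem_map]
    constructor
    · rintro ⟨p, hp, rfl⟩
      refine ⟨p.1, mm.2 ⟨p, hp, rfl⟩, ?_⟩
      simp only [List.mem_map_of_mem hp, if_true, idx_eq hvA hp]
    · rintro ⟨a, ha, e⟩
      obtain ⟨p, hp, rfl⟩ := mm.1 ha
      simp only [List.mem_map_of_mem hp, if_true, idx_eq hvA hp] at e
      exact ⟨p, hp, e⟩
  · intro j
    rw [hOB, Nat.zero_testBit, Bool.false_or, decide_eq_true_eq, List.mem_map]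
    constructor
    · rintro ⟨p, hp, rfl⟩
      refine ⟨p.1, mm.2 ⟨p, hp, rfl⟩, ?_⟩
      simp only [hdis' _ (List.mem_map_of_mem hp), if_false, idx_eq hvB hp]
    · rintro ⟨b, hb, e⟩
      obtain ⟨p, hp, rfl⟩ := mm.1 hb
      simp only [hdis' _ (List.mem_map_of_mem hp), if_false, idx_eq hvB hp] at e
      exact ⟨p, hp, e⟩
  · intro j
    rw [← e3, ands_ok]
    constructor
    · rintro ⟨h1, h2⟩
      exact ⟨h1, fun a ha => h2 a (List.mem_toFinset.1 ha)⟩
    · rintro ⟨h1, h2⟩
      exact ⟨h1, fun a ha => h2 a (List.mem_toFinset.2 ha)⟩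
  · intro j hj hcon
    have h1 : (ands t (B.map Prod.fst) U).testBit j = true :=
      (ands_ok _ _ _ _).2 ⟨hj, fun b hb => hcon b (List.mem_toFinset.2 hb)⟩
    rw [e4, Nat.zero_testBit] at h1
    exact Bool.false_ne_true h1
  · intro b hb j hj
    obtain ⟨p, hp, rfl⟩ := mm.1 hb
    have h1 := congrArg (fun x => x.testBit j) (e5 p hp)
    simp only [tb_land, tb_xor, tb_two, hj, Bool.and_true, Bool.true_xor] at h1
    simp only [hdis' _ (List.mem_toFinset.1 hb), if_false, idx_eq hvB hp]
    rw [h1]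
    simp
  · intro j hj
    have h1 := congrArg (fun x => x.testBit j) e6
    simp only [tb_land, tb_xor, hj, Nat.zero_testBit, Bool.true_and] at h1
    simpa using h1
  · intro a ha j
    obtain ⟨p, hp, rfl⟩ := mm.1 ha
    have h1 : p.1 ∉ B.map Prod.fst := fun h2 => hdis' _ h2 (List.mem_toFinset.1 ha)
    rw [b2 p.1 (hltA p hp) h1, a3 p hp, tb_lor, tb_xor, tb_xor, tb_two]
    simp only [List.mem_toFinset.1 ha, if_true, idx_eq hvA hp]
  · intro b hb j
    obtain ⟨p, hp, rfl⟩ := mm.1 hb
    rw [b3 p hp, a2 p.1 (hltB p hp) (hdis' _ (List.mem_toFinset.1 hb)), tb_lor, tb_xor, tb_xor, tb_two]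
    simp only [hdis' _ (List.mem_toFinset.1 hb), if_false, idx_eq hvB hp]
  · intro v hv h1 h2
    rw [List.mem_toFinset] at h1 h2
    rw [b2 v hv h2, a2 v hv h1]
  · intro j
    rw [tb_lor, tb_xor]

theorem run_ok {n : ℕ} (fl : List ℕ) : ∀ (t : BT) (U : ℕ) (k : BT → ℕ → Bool), run n fl t U k = true → Good n t U →
    ∃ t' U', k t' U' = true ∧ Good n t' U' := by
  induction fl with
  | nil => exact fun t U k h g => ⟨t, U, h, g⟩
  | cons x fl ih =>
    intro t U k h g
    have h' : flip n (dec (Nat.land x 15) (Nat.shiftRight x 4))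
        (dec (Nat.sub (Nat.succ n) (Nat.land x 15)) (Nat.shiftRight x (Nat.add 4 (Nat.mul 29 (Nat.land x 15))))) t U
        (fun t U => run n fl t U k) = true := h
    obtain ⟨t1, U1, h1, g1⟩ := flip_ok h' g
    exact ih t1 U1 k h1 g1

/-- soundness of a segment -/
theorem seg_ok {n : ℕ} {fl : List ℕ} {t t' : BT} {U U' : ℕ} (h : seg n fl t U t' U' = true) (g : Good n t U) :
    Good n t' U' := by
  obtain ⟨s, W, h1, g1⟩ := run_ok fl t U _ h g
  obtain ⟨h2, h3⟩ := rec_f h1
  rw [← Nat.eq_of_beq_eq_true h2, ← beq_ok _ _ h3]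
  exact g1

end Pool.Agent.V8H85.GX
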